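import Mathlib
import Pool.Agent.V1168.BB.Int
import Pool.Agent.Y1.CT.Main

/-!
# Finite generation of Weil-étale motivic cohomology for products of abelian varieties of almost all
slope types of all CM fields with arbitrary varieties

Let `K i` (`i` in a finite set) be CM fields of degree `2 g i`. Nothing is assumed about their Galois
groups. They are pairwise independent: for `i ≠ k` and all complex embeddings `φ` of `K i` and `ψ` of
`K k` some automorphism of `ℂ` is the identity on `φ (K i)` and the complex conjugation on `ψ (K k)`
(this is no condition if there is only one field). We fix an isomorphism `ν` of the algebraic closure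
of `ℚ_p` with `ℂ`; it defines a `p`-adic valuation of `ℂ`, with the value one at `p`. Let `M i` be a
function with nonzero integral values, all of which divide `n i`, on the complex embeddings of
`K i`, invariant under complex conjugation. A CM type `Φ i` of `K i` (a choice of one element out of
each complex conjugate pair of embeddings; there are `2 ^ (g i)` types), `M i` and a real number
`κ ≠ 0` prescribe the slopes `(a + κ M) / 2` (at the embeddings in `Φ i`) and `(a - κ M) / 2` (outside
of `Φ i`) of a Weil number for `p ^ a` in `K i` (`HasType`). If `p` splits completely in `K i` then,
by Honda and Tate, all slopes with rational values between `0` and `a` that are symmetric in this way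
occur for abelian varieties over finite fields. The case `M = 1`, `κ = a` is the case of ordinary
abelian varieties; the assumption on `M` says that `a / 2` is not a slope. Slopes are rational, so
integral weights `M` are no restriction.

There are `2 ^ (∑ i, g i)` families of CM types `Φ i` of the fields `K i`. A family is exceptional
(`exceptionalFamilies ν K M`) if the following statement (`Holds`) is false for it. Let `π i` be Weil
numbers for `q = p ^ a` that generate the fields `K i` and have the slope types `Φ i`, `M i`, and let
`f i` be monic polynomials whose complex roots are conjugates of `π i` (`IsPolyOf`), for instance the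
characteristic polynomials of Frobenius of the abelian varieties in the isogeny classes of the `π i`
over the field with `q` elements. Let `A` be an abelian variety over the field with `Q = q ^ s`
elements which is isogenous to a product of powers of abelian varieties coming from the field with
`q` elements, with characteristic polynomials `f i`. Let `Y` be **any** smooth projective variety over the field with `Q` elements such that
the Frobenius endomorphism of `Y` satisfies on the groups `H^i(A × Y, ℤ(j))` considered below nonzero
polynomials with integral coefficients whose roots are unrelated to the fields `K i`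
(`IntUnrelated`). This is so if the Chow motive of `Y` is finite-dimensional in the sense of Kimura
(for instance, if `Y` is dominated by a product of curves) and the Frobenius eigenvalues on the
cohomology of `Y` are unrelated to the fields `K i`: then a multiple of a power of the
characteristic polynomial of Frobenius is zero on the motive.

A complex number `ρ ≠ 0` is unrelated to the fields `K i` (`Unrelated`) if a function `n` on the
complex embeddings of `K i` with `n (conj φ) = - n φ` which is invariant under all automorphisms of
`ℂ` that fix a power of `ρ` is zero. This is so if for each embedding `ψ` of `K i` some automorphism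
which fixes a power of `ρ` is the complex conjugation on `ψ (K i)`: for instance, if a power of `ρ`
lies in a field linearly disjoint from the normal closures of the `K i`, or in a totally real field.
It is also so if the degree of `ρ` is less than twice the dimension of each nonzero space of
functions `n` stable under all automorphisms of `ℂ` (less than `2 g i` if this representation is
irreducible, as it is for generic CM fields).

Let `H^i(Y, ℤ(j)) = H^i_W(Y, ℤ(j))` be the Weil-étale motivic cohomology groups. Then for all `i` and
`j`

1. the group `H^i_W(A × Y, ℤ(j))` is finitely generated if and only if the groups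
   `H^(i - 2 k)_W(Y, ℤ(j - k))`, `0 ≤ k ≤ dim A`, are finitely generated (`FGEquiv`);
2. **Lichtenbaum's statement `L^n(A × Y)` is equivalent to the statements `L^(n - k)(Y)`,
   `0 ≤ k ≤ min (dim A, n)`** (`LEquiv`).

So question 1 for `A × Y` (and all `n`) is equivalent to question 1 for `Y`. If `Y` is a point, or if
`Y` is a product of curves which satisfies the conjecture of Tate and is unrelated to the fields, it
shows that question 1 has a positive answer for `A × Y`. The theorem is unconditional: no Tate,
Beilinson or Parshin conjecture is assumed for `Y`.

The framework: the Chow ring and the ring of correspondences of `A`, with rational coefficients, and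
the cohomology of `A` (with coefficients in any field of characteristic zero which contains the
Frobenius eigenvalues), with the formal properties and the theorems of Tate on divisors and of Kimura
on the nilpotence of homologically trivial correspondences (`AbelianData`, `IsAbelian`); the Chow ring
and the correspondences with integral coefficients (`IntegralData`, `IsIntegralData`); the
Weil-étale motivic cohomology groups `H^i(Y, ℤ(j))` and `H^i(A × Y, ℤ(j))`, with the products with
cycles on `A`, the push-forward from `A × Y` to `Y`, the operation of the correspondences from `A` to `A`
and the Frobenius endomorphism of `Y` (`IntTheory`, `IsIntGraded`, `IsIntAction`); the Frobenius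
endomorphism of `A × Y` acts as `Q ^ j` in weight `j`. The groups in negative weights are zero, and the
subgroups of the elements annihilated by an integer `n ≠ 0` are finite (`IsIntFinite`): they are
quotients of étale cohomology groups with finite coefficients.

The theorem bounds the number of the exceptional families: it is at most
`2 ^ (∑ i, g i) * ∑ i, C * (n i) ^ 2 * rate (K i) (g i) (q i)`, with an absolute constant `C`. Here
`q i` is any prime factor of `g i` (or `q i = 1`), and `rate K g q` is `(1 + log (2 g)) ^ 16` times
the smaller of the numbers `W (K) / √g` and `√g / q`; the second part of the theorem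
(`WeightEstimate`) is `W (K) ≤ N ^ 2 * D ^ (1 / 4)`, where `N` is the number of the CM subfields of `K`
(with `K`) and `D` is the largest degree of a CM subfield of `K` that is normal over `ℚ` with a
nonabelian Galois group (`D = 1` if there are none). So the exceptional types are a proportion
`O (n ^ 2 * g ^ (-1 / 4) * (log g) ^ 16)` of all types of all CM fields with a bounded number of CM
subfields. The number `W (K)` (`subfieldWeight K`) is the sum over the fields of definition `F` of the
isotypic components of the space of the odd functions on the complex embeddings of `K` of the number
of the CM subfields of `F`, multiplied by `[F : ℚ] ^ (1 / 4)` if `F` is normal over `ℚ` and its Galois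
group is not abelian.

The proof. The bound for the number of the degenerate types is the one of the starting files
(`AllCMFields`, MP_e12fcd_ag, and `Y1.CT.ncard_of_unrel`): if the types are not degenerate, then a
product of `ρ` and of some eigenvalues of `A`, no two of them complex conjugate, is not a power of `q`,
up to a root of unity, for all unrelated `ρ`.
If a Weil number `α` of the cohomology of `A` and an unrelated number `ρ` have the product `Q ^ j`, then
`α = Q ^ k` and `α` is a product of pairs of complex conjugate numbers, so that the eigenvectors of the
Frobenius endomorphism of `A` for `α` are products of divisor classes. There are products `D t` of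
`c t` divisor classes on `A` with a dual system `E t` for the intersection pairing; let `p` be the
projector given by them, and `N` a number such that the `N D t` and `N E t` are integral. For a
suitable polynomial `P` with integral coefficients the integral correspondence
`Θ = (N ^ 2 - N ^ 2 p) P (F)` is homologically trivial, so that a multiple of a power of `Θ` is zero; and
`a (F) P (F)` is multiplication by an integer `N' ≠ 0` on `H^i(A × Y, ℤ(j))`, as the Frobenius
endomorphism of `Y` satisfies there a polynomial with unrelated roots `ρ`, and the one `F` of `A` the
polynomial with the roots `Q ^ j / ρ`. Since `Θ` vanishes on the image of `p`, this shows that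
`B m = b ∑ N D t × (N E t)_* m` for all `m` in `H^i(A × Y, ℤ(j))`, with integers `B ≠ 0` and `b`. So the
kernel of the map `m ↦ ((N E t)_* m)` from `H^i(A × Y, ℤ(j))` to the sum of the
`H^(i - 2 c t)(Y, ℤ(j - c t))` is annihilated by `B`, hence finite, and the maps `n ↦ N D t × n` have
kernels annihilated by `N ^ 2`, which are finite as well.
-/

set_option autoImplicit false

namespace Pool.Agent.Results.MP_cb388a_ag.AllCMTypesTimes

open NumberField Module Pool.Agent.H204R3.CM Pool.Agent.H977R3.CM Pool.Agent.TH170
  Pool.Agent.Y1.KN Pool.Agent.Y1.CT Pool.Agent.V1168.BB

/-- The finite generation for `A × Y` is equivalent to the one for `Y`, for all abelian varieties `A`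
whose Frobenius eigenvalues are powers of conjugates of Weil numbers with the slope types `Φ i`, `M i`,
and all `Y` unrelated to the fields `K i`. -/
def Holds {p : ℕ} [Fact p.Prime] (ν : PadicAlgCl p ≃+* ℂ) {I : Type} (K : I → Type)
    [∀ i, Field (K i)] [∀ i, NumberField (K i)] [∀ i, IsCMField (K i)]
    (M : ∀ i, (K i →+* ℂ) → ℤ) (Φ : ∀ i, Set (K i →+* ℂ)) : Prop :=
  ForAllTypes ν K M (WeilEtaleTimes K) Φ

/-- The exceptional families of CM types. -/
def exceptionalFamilies {p : ℕ} [Fact p.Prime] (ν : PadicAlgCl p ≃+* ℂ) {I : Type} (K : I → Type)
    [∀ i, Field (K i)] [∀ i, NumberField (K i)] [∀ i, IsCMField (K i)]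
    (M : ∀ i, (K i →+* ℂ) → ℤ) : Set (∀ i, Set (K i →+* ℂ)) :=
  {Φ | (∀ i, IsCMType (Φ i)) ∧ ¬ Holds ν K M Φ}

/-- **Lichtenbaum's statement `L^n(A × Y)` on the finite generation of the Weil-étale motivic cohomology is
equivalent to the statements `L^(n - k)(Y)`, `0 ≤ k ≤ min (dim A, n)`, for the abelian varieties `A` of
almost all slope types of all CM fields and all unrelated varieties `Y`.** -/
theorem result :
    (∃ C : ℝ, 0 ≤ C ∧ ∀ (p : ℕ) [Fact p.Prime] (ν : PadicAlgCl p ≃+* ℂ) (I : Type) [Fintype I]
      (K : I → Type) [∀ i, Field (K i)] [∀ i, NumberField (K i)] [∀ i, IsCMField (K i)]
      (M : ∀ i, (K i →+* ℂ) → ℤ) (n g q : I → ℕ), PairwiseIndep K →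
      (∀ i φ, M i (ComplexEmbedding.conjugate φ) = M i φ) → (∀ i, n i ≠ 0) →
      (∀ i φ, M i φ ∣ (n i : ℤ)) → (∀ i, finrank ℚ (K i) = 2 * g i) →
      (∀ i, q i ∣ g i ∧ (q i = 1 ∨ (q i).Prime)) →
      ((exceptionalFamilies ν K M).ncard : ℝ) ≤
        2 ^ (∑ i, g i) * ∑ i, C * (n i : ℝ) ^ 2 * rate (K i) (g i) (q i)) ∧
    WeightEstimate := by
  obtain ⟨C, hC0, hC⟩ := ncard_of_unrel
  refine ⟨⟨C, hC0, ?_⟩, weight_estimate_holds⟩
  intro p _ ν I _ K _ _ _ M n g q hind hM hn hMn hg hq
  exact hC p ν I K M n g q hind hM hn hMn hg hq _ fun Q f hQ hR => weilEtaleTimes hQ hR

end Pool.Agent.Results.MP_cb388a_ag.AllCMTypesTimes
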