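import Mathlib
import Pool.Agent.V1168.EV.Int
import Pool.Agent.V1168.EV.Rel

/-!
# Finite generation of Weil-étale motivic cohomology for the products of arbitrary varieties with abelian
varieties outside of finitely many lines of slope vectors

Let `K i` (`i` in a finite set) be CM fields with pair flips (`PairFlips`): for any two complex
embeddings `φ` of `K i` and `ψ` of `K k` (with `i = k` or not) which are neither equal nor complex
conjugate, some automorphism of `ℂ` is the identity on `φ (K i)` and the complex conjugation on
`ψ (K k)`. One CM field `K` of degree `2 g` has this property if the Galois group of its normal closure
is the largest possible one (of order `2 ^ g g!`), or contains, for each pair of complex conjugate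
embeddings, an element which exchanges them and fixes all other embeddings, or contains all the
automorphisms that exchange two pairs in this sense (`g > 2`); several such fields with linearly
disjoint normal closures have it together. We fix an isomorphism `ν` of the algebraic closure of `ℚ_p`
with `ℂ`; it defines a `p`-adic valuation `v` of `ℂ` with `v p = 1`. The slope vector of a Weil number
`π` for `p ^ a` in `K i` is the function `2 v (φ π) - a` on the complex embeddings `φ` of `K i`
(`slopeVector`); it is odd: its values at conjugate embeddings are opposite.

Let `π i` be Weil numbers for `q = p ^ a` in `K i` with nonzero slope vectors, and let `f i` be monic
polynomials whose complex roots are conjugates of `π i` (`IsPolyOf`), for instance the characteristic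
polynomials of Frobenius of the abelian varieties in the isogeny classes of the `π i` over the field
with `q` elements. Let `A` be an abelian variety over the field with `Q = q ^ s` elements which is
isogenous to a product of powers of abelian varieties coming from the field with `q` elements, with
characteristic polynomials `f i` (`IsAbelian`).

A number `ρ` comes from the finite set `Ω` of complex numbers (`From p Ω`) if it is not zero and a power
of it is the product of a power of a conjugate of an element of `Ω`, or of `1`, and of a power of `p`.
(All Frobenius eigenvalues of a variety come from such a set `Ω`: take one root of each irreducible
factor of the characteristic polynomials.)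

Let `Y` be **any** smooth projective variety over the field with `Q` elements such that
the Frobenius endomorphism of `Y` satisfies on the groups `H^i(A × Y, ℤ(j))` considered below nonzero
polynomials with integral coefficients whose roots come from `Ω`
(`IntFrom`). This is so if the Chow motive of `Y` is finite-dimensional in the sense of Kimura
(for instance, if `Y` is dominated by a product of curves) and the Frobenius eigenvalues on the
cohomology of `Y` come from `Ω`: then a multiple of a power of the
characteristic polynomial of Frobenius is zero on the motive.

**The theorem: there is a set `E` of at most `|Ω|` lines, each of them in the space of the functions on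
the complex embeddings of one of the fields `K i`, such that for all `a`, all `π i` whose slope vectors
are not on the lines in `E`, all `f i`, `s`, `A` and all `Y` as above the statement below is true.**
The lines depend only on `ν`, the fields and `Ω`, and not on the Weil numbers, on the powers of the
abelian varieties, on the finite field or on `Y`. So for one field `K` and a given `Y` all the Weil
numbers in `K` are allowed, except those whose slope vector is a multiple of one of at most `|Ω|`
vectors in the `g`-dimensional space of the odd functions; for instance, at most `2 |Ω|` of the `2 ^ g`
slope types of the ordinary abelian varieties with complex multiplication by `K` are exceptional for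
`Y`. (Exceptions to the Künneth formula behind the theorem are necessary: if `Y = A` then there are
divisor classes in `H^1(A) ⊗ H^1(Y)`.)

My `AllCMTypesTimes` is about the case that the Frobenius eigenvalues are unrelated to the fields
`K i`. **Here they are arbitrary**: they may generate the same fields `K i`, or fields containing them. My
`EveryVarietyTimes` is about **one** family of Weil numbers `π i` (possibly in infinitely many fields),
and bounds the total degree of the fields of its exceptional members; for one field it only says
something if its degree is bigger than `|Ω|`. Here the fields are given, **all the Weil numbers in them
are considered at the same time**, the exceptions are on at most `|Ω|` lines, and `Ω` is any finite set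
(not stable under the automorphisms, one of each set of conjugates is sufficient, so that `Ω` is in
general much smaller; and its elements need not be in CM fields).

Let `H^i(Y, ℤ(j)) = H^i_W(Y, ℤ(j))` be the Weil-étale motivic cohomology groups. Then for all `i` and
`j`

1. the group `H^i_W(A × Y, ℤ(j))` is finitely generated if and only if the groups
   `H^(i - 2 k)_W(Y, ℤ(j - k))`, `0 ≤ k ≤ dim A`, are finitely generated (`FGEquiv`);
2. **Lichtenbaum's statement `L^n(A × Y)` is equivalent to the statements `L^(n - k)(Y)`,
   `0 ≤ k ≤ min (dim A, n)`** (`LEquiv`).

So question 1 for `A × Y` (and all `n`) is equivalent to question 1 for `Y`. If `Y` is a point, or if
`Y` is a product of curves which satisfies the conjecture of Tate, it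
shows that question 1 has a positive answer for `A × Y`. The theorem is unconditional: no Tate,
Beilinson or Parshin conjecture is assumed for `Y`.

The framework: the Chow ring and the ring of correspondences of `A`, with rational coefficients, and
the cohomology of `A` (with coefficients in any field of characteristic zero which contains the
Frobenius eigenvalues), with the formal properties and the theorems of Tate on divisors and of Kimura
on the nilpotence of homologically trivial correspondences (`AbelianData`, `IsAbelian`); the Chow ring
and the correspondences with integral coefficients (`IntegralData`, `IsIntegralData`); the
Weil-étale motivic cohomology groups `H^i(Y, ℤ(j))` and `H^i(A × Y, ℤ(j))`, with the products with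
cycles on `A`, the push-forward from `A × Y` to `Y`, the operation of the correspondences from `A` to `A`
and the Frobenius endomorphism of `Y` (`IntTheory`, `IsIntGraded`, `IsIntAction`); the Frobenius
endomorphism of `A × Y` acts as `Q ^ j` in weight `j`. The groups in negative weights are zero, and the
subgroups of the elements annihilated by an integer `n ≠ 0` are finite (`IsIntFinite`): they are
quotients of étale cohomology groups with finite coefficients.

The proof. Let `x i` be the slope vectors of the `π i`, and let `ρ` be a number that comes from
`β ∈ Ω`. If a product of `ρ` and of roots of the `f i`, no two of them complex conjugate, is a power of
`q` up to a root of unity, then, computing valuations, there are odd functions `n i`, not all zero, and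
constants with `∑ n i φ * x i (σ φ) = c₁ v (σ β) + c₂` for all automorphisms `σ` of `ℂ` (the sum over all `i`
and all embeddings `φ`; the automorphism in the definition of `From` is absorbed by `n`). Take the odd
part, and average over the automorphisms which fix a given embedding `φ₀` of `K i`: by the pair flips
the average of an odd function is zero except at `φ₀` and its conjugate, so that
`n i (σ⁻¹ φ₀) * x i φ₀` is determined by `c₁` and `β` (`EV.key`). For `β = 1` all these numbers are
zero, and there are no relations, as `x i` is not zero. In general it follows that, for each `i` with `n i` not zero, `x i` is
determined up to a factor by `β`: this is the exceptional line of `β` (`EV.exists_lines`). (The odd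
functions on the embeddings of the `K i` are absolutely irreducible representations, not isomorphic
for different `i`.) Hence there are no such relations outside of the lines (`EV.exactPair_of`).
If a Weil number `α` of the cohomology of `A` and a number `ρ` from `Ω` have the product `Q ^ j`, then
`α = Q ^ k` and `α` is a product of pairs of complex conjugate numbers, so that the eigenvectors of the
Frobenius endomorphism of `A` for `α` are products of divisor classes. There are products `D t` of
`c t` divisor classes on `A` with a dual system `E t` for the intersection pairing; let `p` be the
projector given by them, and `N` a number such that the `N D t` and `N E t` are integral. For a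
suitable polynomial `P` with integral coefficients the integral correspondence
`Θ = (N ^ 2 - N ^ 2 p) P (F)` is homologically trivial, so that a multiple of a power of `Θ` is zero; and
`a (F) P (F)` is multiplication by an integer `N' ≠ 0` on `H^i(A × Y, ℤ(j))`, as the Frobenius
endomorphism of `Y` satisfies there a polynomial with roots from `Ω`, and the one `F` of `A` the
polynomial with the roots `Q ^ j / ρ`. Since `Θ` vanishes on the image of `p`, this shows that
`B m = b ∑ N D t × (N E t)_* m` for all `m` in `H^i(A × Y, ℤ(j))`, with integers `B ≠ 0` and `b`. So the
kernel of the map `m ↦ ((N E t)_* m)` from `H^i(A × Y, ℤ(j))` to the sum of the
`H^(i - 2 c t)(Y, ℤ(j - c t))` is annihilated by `B`, hence finite, and the maps `n ↦ N D t × n` have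
kernels annihilated by `N ^ 2`, which are finite as well.
-/

set_option autoImplicit false

namespace Pool.Agent.Results.MP_cb388a_ag.ExceptionalSlopeLines

open NumberField Pool.Agent.V1168.EV

/-- **Lichtenbaum's statement `L^n(A × Y)` on the finite generation of the Weil-étale motivic cohomology is
equivalent to the statements `L^(n - k)(Y)`, `0 ≤ k ≤ min (dim A, n)`, for all `Y`
with Frobenius eigenvalues from the finite set `Ω` and all abelian varieties `A` given by Weil numbers
in the CM fields `K i` (with pair flips) with slope vectors outside of at most `|Ω|` lines.** -/
theorem result {p : ℕ} [Fact p.Prime] (ν : PadicAlgCl p ≃+* ℂ) {I : Type} [Finite I]
    (K : I → Type) [∀ i, Field (K i)] [∀ i, NumberField (K i)] [∀ i, IsCMField (K i)]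
    (hK : PairFlips K) (Ω : Finset ℂ) :
    ∃ E : Finset (Σ i, ((K i →+* ℂ) → ℝ)), E.card ≤ Ω.card ∧
      ForAllOutside ν K (WeilEtaleTimes p Ω) E := by
  obtain ⟨E, hE, h⟩ := exists_lines_forall ν K hK Ω
  exact ⟨E, hE, h _ fun q f hq hR => weilEtaleTimes hq hR⟩

end Pool.Agent.Results.MP_cb388a_ag.ExceptionalSlopeLines
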